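import Pool.Agent.Results.MP_ece58e_al.LocallyGraded

/-!
# Products `C F C` in which at most one double coset is an infinite union of cosets

Q1 asks whether `G = C F C`, with a cyclic subgroup `C` and a finite cyclic subgroup `F`, implies that the index of `C` is
finite. We prove it for every finite set `F` and every group `G` if at most one of the double cosets `C x C`, `x ∈ F`, is an
infinite union of left cosets of `C`. So in a counterexample at least two of the double cosets are infinite unions of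
cosets.

Proof. Let `C` be infinite, `M` the commensurator of `C` and `f ∉ M`, so `G = M ∪ C f C`, and `C` has finite index in `M`. If
`f c^n f⁻¹ ∈ M`, `n ≠ 0`, then a power is in `C`, and so `f ∈ M`. So `f c^n f⁻¹` is in `C f C` for all `n ≠ 0`, and we may assume
`f ^ 2 = 1`. Write `f c^n f = c^(s n) f c^(r n)`, `n ≠ 0` (`s` is Zech's logarithm). The two ways to compute
`f c^n f c^m f` give `s (n + s m) = s n + s (m - s (-n))`. Computing `s (s a + s b) = s (s b + s a)` by this rule one finds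
that `s n - s (-n) - n` does not depend on `n`, so it is `0` (`exps`). So the product of two distinct conjugates
`f_n = c^n f c^(-n)` of `f` is again such a conjugate, they generate an abelian group of exponent 2, and
`f_(n+1) f_n = f_(n+k)`, `k = s 1`. So this group is finitely generated and finite, but the conjugates are distinct, a
contradiction. (If `M = C` the group is sharply 2-transitive on the cosets with abelian stabilizers; this case is a theorem of
Karolyi, Kovacs and Palfy.)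
-/

set_option autoImplicit false

namespace Pool.Agent.Results.MP_ece58e_al.OneInfiniteDoubleCoset

open Subgroup

/-- The algebra of the exponents. -/
lemma exps (s : ℤ → ℤ) (h0 : ∀ n, n ≠ 0 → s n ≠ 0) (h1 : ∀ n, n ≠ 0 → s (s n) = n)
    (h2 : ∀ n, n ≠ 0 → s (-s n) = -s (-n))
    (h3 : ∀ n m, n ≠ 0 → m ≠ 0 → n + s m ≠ 0 → s (n + s m) = s n + s (m - s (-n)))
    (h4 : ∀ n, n ≠ 0 → s n ≠ n) (n : ℤ) (hn : n ≠ 0) : s n = n + s (-n) := by
  have hV : ∀ a b, a ≠ 0 → b ≠ 0 → s a + s b ≠ 0 → a + s (b + s (-a)) = b + s (a + s (-b)) := by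
    intro a b ha hb hab
    have e1 := h3 (s a) b (h0 a ha) hb hab
    rw [h1 a ha, h2 a ha] at e1
    have e2 := h3 (s b) a (h0 b hb) ha (by rw [add_comm]; exact hab)
    rw [h1 b hb, h2 b hb] at e2
    have e3 : s (s a + s b) = s (s b + s a) := by rw [add_comm]
    rw [e1, e2] at e3
    simpa [sub_neg_eq_add] using e3
  have hE : ∀ y b, y ≠ 0 → b ≠ 0 → y ≠ s (-b) → s y - s (-y) - y = s b - s (-b) - b := by
    intro y b hy hb hyb
    obtain ⟨a, ha⟩ : ∃ a, a = y - s (-b) := ⟨_, rfl⟩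
    have ha0 : a ≠ 0 := by rw [ha]; exact sub_ne_zero.2 hyb
    have hab : b + s (-a) ≠ 0 := by
      intro h
      have e1 : s (-a) = -b := by omega
      have e2 := h1 (-a) (neg_ne_zero.2 ha0)
      rw [e1] at e2
      omega
    have hab' : s a + s b ≠ 0 := by
      intro h
      have e1 : s a = - s b := by omega
      have e2 := h1 a ha0
      rw [e1, h2 b hb] at e2
      omega
    have e1 := hV a b ha0 hb hab'
    have e2 := h3 b (-a) hb (neg_ne_zero.2 ha0) hab
    have e3 : a + s (-b) = y := by omega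
    have e4 : -a - s (-b) = -y := by omega
    rw [e3] at e1
    rw [e4] at e2
    omega
  have e1 := hE (-n) n (neg_ne_zero.2 hn) hn (fun h => h4 (-n) (neg_ne_zero.2 hn) h.symm)
  rw [neg_neg] at e1
  omega

variable {G : Type*} [Group G]

/-- There is no infinite sharply 2-transitive group with an infinite cyclic point stabilizer. -/
theorem key (c f : G) (hff : f * f = 1) (hcf : ∀ n : ℤ, n ≠ 0 → ∃ a b : ℤ, f * c ^ n * f = c ^ a * f * c ^ b)
    (hnc : ∀ m : ℤ, m ≠ 0 → f * c ^ m * f ∉ zpowers c) : False := by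
  have hc1 : ∀ m : ℤ, m ≠ 0 → c ^ m ≠ 1 := by
    intro m hm h
    apply hnc m hm
    rw [h, mul_one, hff]
    exact one_mem _
  have hfC : f ∉ zpowers c := fun h =>
    hnc 1 one_ne_zero (mul_mem (mul_mem h (zpow_mem (mem_zpowers c) 1)) h)
  have hfi : f⁻¹ = f := by rw [inv_eq_iff_mul_eq_one, hff]
  have uniq : ∀ a b a' b' : ℤ, c ^ a * f * c ^ b = c ^ a' * f * c ^ b' → a = a' ∧ b = b' := by
    intro a b a' b' h
    have h1 : f * c ^ (b - b') * f = c ^ (a' - a) := by
      calc f * c ^ (b - b') * f = (c ^ a)⁻¹ * (c ^ a * f * c ^ b) * (c ^ b')⁻¹ * f := by group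
        _ = (c ^ a)⁻¹ * (c ^ a' * f * c ^ b') * (c ^ b')⁻¹ * f := by rw [h]
        _ = c ^ (a' - a) * (f * f) := by group
        _ = c ^ (a' - a) := by rw [hff, mul_one]
    have hb : b - b' = 0 := by
      by_contra hb
      exact hnc _ hb (by rw [h1]; exact zpow_mem (mem_zpowers c) _)
    rw [hb, zpow_zero, mul_one, hff] at h1
    have ha : a' - a = 0 := by
      by_contra ha
      exact hc1 _ ha h1.symm
    omega
  have hT : ∀ n : ℤ, ∃ a b : ℤ, n ≠ 0 → f * c ^ n * f = c ^ a * f * c ^ b := by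
    intro n
    by_cases hn : n = 0
    · exact ⟨0, 0, fun h => absurd hn h⟩
    · obtain ⟨a, b, h⟩ := hcf n hn
      exact ⟨a, b, fun _ => h⟩
  choose s r hsr using hT
  have hr : ∀ n, n ≠ 0 → r n = - s (-n) := by
    intro n hn
    have e1 : f * c ^ (-n) * f = c ^ (-r n) * f * c ^ (-s n) := by
      have e2 : f * c ^ (-n) * f = (f * c ^ n * f)⁻¹ := by
        rw [mul_inv_rev, mul_inv_rev, hfi, zpow_neg]
        group
      rw [e2, hsr n hn, mul_inv_rev, mul_inv_rev, hfi]
      group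
    rw [hsr (-n) (neg_ne_zero.2 hn)] at e1
    have := (uniq _ _ _ _ e1).1
    omega
  have h0 : ∀ n, n ≠ 0 → s n ≠ 0 := by
    intro n hn h
    have e1 := hsr n hn
    rw [h, zpow_zero, one_mul, mul_assoc] at e1
    have e2 := mul_left_cancel e1
    apply hfC
    have e3 : f = c ^ (-n) * c ^ (r n) := by rw [← e2]; group
    rw [e3]
    exact mul_mem (zpow_mem (mem_zpowers c) _) (zpow_mem (mem_zpowers c) _)
  have hss : ∀ n, n ≠ 0 → s (s n) = n ∧ r (s n) = - r n := by
    intro n hn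
    have e1 : f * c ^ (s n) * f = c ^ n * f * c ^ (-r n) := by
      calc f * c ^ (s n) * f = f * (c ^ (s n) * f * c ^ (r n)) * c ^ (-r n) := by group
        _ = f * (f * c ^ n * f) * c ^ (-r n) := by rw [hsr n hn]
        _ = (f * f) * c ^ n * f * c ^ (-r n) := by group
        _ = _ := by rw [hff, one_mul]
    rw [hsr (s n) (h0 n hn)] at e1
    exact uniq _ _ _ _ e1
  have h1 : ∀ n, n ≠ 0 → s (s n) = n := fun n hn => (hss n hn).1
  have h2 : ∀ n, n ≠ 0 → s (-s n) = -s (-n) := by
    intro n hn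
    have e1 := hr (s n) (h0 n hn)
    have e2 := (hss n hn).2
    have e3 := hr n hn
    omega
  have h3 : ∀ n m, n ≠ 0 → m ≠ 0 → n + s m ≠ 0 → s (n + s m) = s n + s (m - s (-n)) := by
    intro n m hn hm hnm
    have hm' : m - s (-n) ≠ 0 := by
      intro h
      have e1 := h1 (-n) (neg_ne_zero.2 hn)
      have e2 : s (-n) = m := by omega
      rw [e2] at e1
      omega
    have hm2 : m + r n ≠ 0 := by rw [hr n hn]; omega
    have e1 : c ^ (s (n + s m)) * f * c ^ (r (n + s m) + r m) =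
        c ^ (s n + s (m + r n)) * f * c ^ (r (m + r n)) := by
      calc c ^ (s (n + s m)) * f * c ^ (r (n + s m) + r m)
          = (c ^ (s (n + s m)) * f * c ^ (r (n + s m))) * c ^ (r m) := by group
        _ = (f * c ^ (n + s m) * f) * c ^ (r m) := by rw [hsr (n + s m) hnm]
        _ = f * c ^ n * (c ^ (s m) * f * c ^ (r m)) := by group
        _ = f * c ^ n * (f * c ^ m * f) := by rw [hsr m hm]
        _ = (f * c ^ n * f) * c ^ m * f := by group
        _ = (c ^ (s n) * f * c ^ (r n)) * c ^ m * f := by rw [hsr n hn]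
        _ = c ^ (s n) * (f * c ^ (m + r n) * f) := by group
        _ = c ^ (s n) * (c ^ (s (m + r n)) * f * c ^ (r (m + r n))) := by rw [hsr (m + r n) hm2]
        _ = _ := by group
    have e2 := (uniq _ _ _ _ e1).1
    rw [hr n hn] at e2
    rw [e2]
    rfl
  have h4 : ∀ n, n ≠ 0 → s n ≠ n := by
    intro m hm h
    have e1 := hsr m hm
    rw [h] at e1
    -- f c^m f = c^m f c^k, so c^(-m) f c^m = f c^k f
    obtain ⟨k, hk⟩ : ∃ k, k = r m := ⟨_, rfl⟩
    rw [← hk] at e1
    have e2 : c ^ (-m) * f * c ^ m = f * c ^ k * f := by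
      calc c ^ (-m) * f * c ^ m = c ^ (-m) * (f * c ^ m * f) * f⁻¹ := by group
        _ = c ^ (-m) * (c ^ m * f * c ^ k) * f := by rw [e1, hfi]
        _ = f * c ^ k * f := by group
    have e3 : (c ^ (-m) * f * c ^ m) * (c ^ (-m) * f * c ^ m) = 1 := by
      calc (c ^ (-m) * f * c ^ m) * (c ^ (-m) * f * c ^ m) = c ^ (-m) * (f * f) * c ^ m := by group
        _ = 1 := by rw [hff]; group
    have e4 : (f * c ^ k * f) * (f * c ^ k * f) = f * c ^ (2 * k) * f := by
      calc (f * c ^ k * f) * (f * c ^ k * f) = f * c ^ k * (f * f) * c ^ k * f := by group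
        _ = f * c ^ (2 * k) * f := by rw [hff]; group
    rw [e2, e4] at e3
    have hk0 : 2 * k = 0 := by
      by_contra hk0
      exact hnc _ hk0 (by rw [e3]; exact one_mem _)
    have hk1 : k = 0 := by omega
    rw [hk1, zpow_zero, mul_one, hff] at e2
    apply hfC
    have e5 : f = 1 := by
      calc f = c ^ m * (c ^ (-m) * f * c ^ m) * c ^ (-m) := by group
        _ = 1 := by rw [e2]; group
    rw [e5]
    exact one_mem _
  have h5 := exps s h0 h1 h2 h3 h4
  -- the involutions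
  obtain ⟨φ, hφ⟩ : ∃ φ : ℤ → G →* G, ∀ j x, φ j x = c ^ j * x * c ^ (-j) :=
    ⟨fun j => (MulAut.conj (c ^ j)).toMonoidHom, fun j x => by
      rw [zpow_neg]
      exact MulAut.conj_apply _ _⟩
  have hφadd : ∀ i j x, φ (i + j) x = φ i (φ j x) := by
    intro i j x
    rw [hφ, hφ, hφ]
    group
  have hφ0 : ∀ x, φ 0 x = x := by
    intro x
    rw [hφ]
    simp
  have hinv : ∀ j, φ j f * φ j f = 1 := by
    intro j
    rw [← map_mul, hff, map_one]
  have hprod : ∀ n, n ≠ 0 → φ n f * φ 0 f = φ (s n) f := by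
    intro n hn
    have e1 := hsr (-n) (neg_ne_zero.2 hn)
    have e2 := hr (-n) (neg_ne_zero.2 hn)
    rw [neg_neg] at e2
    have e3 := h5 n hn
    rw [hφ0, hφ, hφ]
    calc c ^ n * f * c ^ (-n) * f = c ^ n * (f * c ^ (-n) * f) := by group
      _ = c ^ n * (c ^ (s (-n)) * f * c ^ (r (-n))) := by rw [e1]
      _ = c ^ (n + s (-n)) * f * c ^ (r (-n)) := by group
      _ = c ^ (s n) * f * c ^ (-s n) := by rw [← e3, e2]
  have hcomm0 : ∀ n, φ n f * φ 0 f = φ 0 f * φ n f := by
    intro n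
    by_cases hn : n = 0
    · rw [hn]
    · have e1 := hinv (s n)
      rw [← hprod n hn] at e1
      have e2 := hinv n
      have e3 := hinv 0
      calc φ n f * φ 0 f = (φ n f * φ 0 f)⁻¹ := by
            rw [eq_inv_iff_mul_eq_one]; exact e1
        _ = (φ 0 f)⁻¹ * (φ n f)⁻¹ := mul_inv_rev _ _
        _ = φ 0 f * φ n f := by
            rw [inv_eq_iff_mul_eq_one.2 e3, inv_eq_iff_mul_eq_one.2 e2]
  have hcomm : ∀ i j, φ i f * φ j f = φ j f * φ i f := by
    intro i j
    have e1 := congrArg (φ j) (hcomm0 (i - j))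
    rw [map_mul, map_mul, ← hφadd, ← hφadd] at e1
    have e2 : j + (i - j) = i := by ring
    rw [e2, add_zero] at e1
    exact e1
  have hk := hprod 1 one_ne_zero
  have hk0 : s 1 ≠ 0 := h0 1 one_ne_zero
  have hk1 : s 1 ≠ 1 := h4 1 one_ne_zero
  have hwin : ∃ p q : ℤ, ∀ j, φ j f ∈ LocallyGraded.win φ f p q := by
    rcases lt_or_gt_of_ne hk0 with hneg | hpos
    · refine ⟨s 1, 1, fun j => LocallyGraded.all_mem_win hφadd (by omega) ?_ ?_ j⟩
      · have e1 : φ 1 f = φ (s 1) f * φ 0 f := by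
          rw [← hk, mul_assoc, hinv 0, mul_one]
        rw [e1]
        exact mul_mem (LocallyGraded.mem_win (by omega) (by omega))
          (LocallyGraded.mem_win (by omega) (by omega))
      · rw [← hk]
        exact mul_mem (LocallyGraded.mem_win (by omega) (by omega))
          (LocallyGraded.mem_win (by omega) (by omega))
    · refine ⟨0, s 1, fun j => LocallyGraded.all_mem_win hφadd (by omega) ?_ ?_ j⟩
      · rw [← hk]
        exact mul_mem (LocallyGraded.mem_win (by omega) (by omega))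
          (LocallyGraded.mem_win (by omega) (by omega))
      · have e1 : φ 0 f = φ 1 f * φ (s 1) f := by
          rw [← hk, ← mul_assoc, hinv 1, one_mul]
        rw [e1]
        exact mul_mem (LocallyGraded.mem_win (by omega) (by omega))
          (LocallyGraded.mem_win (by omega) (by omega))
  obtain ⟨p, q, hpq⟩ := hwin
  obtain ⟨K, hK⟩ : ∃ K : Subgroup G, K = LocallyGraded.win φ f p q := ⟨_, rfl⟩
  have hKc : ∀ x ∈ K, ∀ y ∈ K, x * y = y * x := by
    intro x hx y hy
    rw [hK, LocallyGraded.win] at hx hy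
    have h : ∀ a ∈ {a : G | ∃ j : ℤ, p ≤ j ∧ j < q ∧ a = φ j f},
        ∀ b ∈ {a : G | ∃ j : ℤ, p ≤ j ∧ j < q ∧ a = φ j f}, a * b = b * a := by
      rintro a ⟨i, _, _, rfl⟩ b ⟨j, _, _, rfl⟩
      exact hcomm i j
    have hcl := Subgroup.isMulCommutative_closure h
    have := hcl.is_comm.comm (⟨x, hx⟩ : closure {a : G | ∃ j : ℤ, p ≤ j ∧ j < q ∧ a = φ j f}) ⟨y, hy⟩
    exact congrArg Subtype.val this
  have hK2 : ∀ x ∈ K, x * x = 1 := by
    intro x hx
    have hx' := hx
    rw [hK, LocallyGraded.win] at hx'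
    induction hx' using Subgroup.closure_induction with
    | mem y hy =>
      obtain ⟨j, _, _, rfl⟩ := hy
      exact hinv j
    | one => exact one_mul 1
    | mul y z hy hz ihy ihz =>
      have hy' : y ∈ K := by rw [hK]; exact hy
      have hz' : z ∈ K := by rw [hK]; exact hz
      calc y * z * (y * z) = y * (z * y) * z := by group
        _ = y * (y * z) * z := by rw [hKc z hz' y hy']
        _ = (y * y) * (z * z) := by group
        _ = 1 := by rw [ihy hy', ihz hz', one_mul]
    | inv y hy ihy =>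
      have hy' : y ∈ K := by rw [hK]; exact hy
      calc y⁻¹ * y⁻¹ = (y * y)⁻¹ := by group
        _ = 1 := by rw [ihy hy', inv_one]
  let _ : CommGroup K := { (inferInstance : Group K) with
    mul_comm := fun x y => Subtype.ext (hKc x x.2 y y.2) }
  have hfg : Group.FG K := by
    rw [Group.fg_iff_subgroup_fg, hK]
    exact LocallyGraded.win_fg φ f p q
  have hfin : Finite K := by
    apply CommGroup.finite_of_fg_isMulTorsion
    intro x
    rw [isOfFinOrder_iff_pow_eq_one]
    exact ⟨2, two_pos, Subtype.ext (by rw [pow_two]; exact hK2 x x.2)⟩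
  have hinj : Function.Injective (fun j : ℤ => (⟨φ j f, by rw [hK]; exact hpq j⟩ : K)) := by
    intro i j hij
    have e1 : φ i f = φ j f := congrArg Subtype.val hij
    rw [hφ, hφ] at e1
    exact (uniq _ _ _ _ e1).1
  exact not_finite_iff_infinite.2 (Infinite.of_injective _ hinj) hfin

/-- `g` commensurates the subgroup generated by `c` (if `c` has infinite order). -/
def Com (c g : G) : Prop := ∃ l m : ℤ, l ≠ 0 ∧ c ^ l * g = g * c ^ m

lemma zpow_conj {c g : G} {l m : ℤ} (h : c ^ l * g = g * c ^ m) (k : ℤ) : c ^ (l * k) * g = g * c ^ (m * k) := by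
  have e1 : g⁻¹ * c ^ l * g = c ^ m := by rw [mul_assoc, h]; group
  rw [zpow_mul, zpow_mul]
  calc (c ^ l) ^ k * g = g * (g⁻¹ * c ^ l * g) ^ k := by
        have := conj_zpow (a := g⁻¹) (b := c ^ l) (i := k)
        rw [inv_inv] at this
        rw [this]
        group
    _ = g * (c ^ m) ^ k := by rw [e1]

lemma com_pow (c : G) (i : ℤ) : Com c (c ^ i) := ⟨1, 1, one_ne_zero, by group⟩

lemma com_mul {c g h : G} (hg : Com c g) (hh : Com c h) : Com c (g * h) := by
  obtain ⟨l, m, hl, e⟩ := hg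
  obtain ⟨l', m', hl', e'⟩ := hh
  refine ⟨l * l', m' * m, mul_ne_zero hl hl', ?_⟩
  have e1 := zpow_conj e l'
  have e2 := zpow_conj e' m
  rw [mul_comm l' m] at e2
  rw [← mul_assoc, e1, mul_assoc, e2, mul_assoc]

lemma com_inv {c g : G} (hc : ∀ n : ℤ, n ≠ 0 → c ^ n ≠ 1) (hg : Com c g) : Com c g⁻¹ := by
  obtain ⟨l, m, hl, e⟩ := hg
  refine ⟨m, l, ?_, ?_⟩
  · rintro rfl
    rw [zpow_zero, mul_one] at e
    exact hc l hl (by simpa using e)
  · calc c ^ m * g⁻¹ = g⁻¹ * (g * c ^ m) * g⁻¹ := by group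
      _ = g⁻¹ * (c ^ l * g) * g⁻¹ := by rw [e]
      _ = g⁻¹ * c ^ l := by group

lemma cosets_finite {c x : G} (h : Com c x) :
    (Set.range fun i : ℤ => ((c ^ i * x : G) : G ⧸ zpowers c)).Finite := by
  obtain ⟨l, m, hl, e⟩ := h
  apply Set.Finite.subset ((Set.finite_Ico (0 : ℤ) |l|).image fun i => ((c ^ i * x : G) : G ⧸ zpowers c))
  rintro _ ⟨a, rfl⟩
  refine ⟨a % l, ⟨Int.emod_nonneg _ hl, Int.emod_lt_abs _ hl⟩, ?_⟩
  show ((c ^ (a % l) * x : G) : G ⧸ zpowers c) = ((c ^ a * x : G) : G ⧸ zpowers c)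
  rw [QuotientGroup.eq]
  have e1 : c ^ a * x = c ^ (a % l) * x * c ^ (m * (a / l)) := by
    have e2 : a = a % l + l * (a / l) := (Int.emod_add_mul_ediv a l).symm
    calc c ^ a * x = c ^ (a % l) * (c ^ (l * (a / l)) * x) := by
          rw [← mul_assoc, ← zpow_add, ← e2]
      _ = c ^ (a % l) * x * c ^ (m * (a / l)) := by rw [zpow_conj e, mul_assoc]
  have e3 : (c ^ (a % l) * x)⁻¹ * (c ^ a * x) = c ^ (m * (a / l)) := by
    rw [e1]; group
  rw [e3]
  exact zpow_mem (mem_zpowers c) _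

/-- The cosets in the double cosets of the elements of `F` which commensurate. -/
lemma union_finite (c : G) {F : Set G} (hF : F.Finite) :
    (⋃ x ∈ {x ∈ F | Com c x}, Set.range fun i : ℤ => ((c ^ i * x : G) : G ⧸ zpowers c)).Finite :=
  Set.Finite.biUnion (hF.subset fun _ h => h.1) fun _ h => cosets_finite h.2

lemma mem_union {c x : G} {F : Set G} (hx : x ∈ F) (hc : Com c x) (i j : ℤ) :
    ((c ^ i * x * c ^ j : G) : G ⧸ zpowers c) ∈
      ⋃ x ∈ {x ∈ F | Com c x}, Set.range fun i : ℤ => ((c ^ i * x : G) : G ⧸ zpowers c) := by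
  rw [Set.mem_iUnion₂]
  refine ⟨x, ⟨hx, hc⟩, i, ?_⟩
  show ((c ^ i * x : G) : G ⧸ zpowers c) = _
  rw [QuotientGroup.eq]
  have : (c ^ i * x)⁻¹ * (c ^ i * x * c ^ j) = c ^ j := by group
  rw [this]
  exact zpow_mem (mem_zpowers c) _

/-- The index is finite if all elements of `F` commensurate. -/
lemma index_of_com (c : G) {F : Set G} (hF : F.Finite)
    (hcov : ∀ g : G, ∃ x ∈ F, ∃ i j : ℤ, g = c ^ i * x * c ^ j) (hcom : ∀ x ∈ F, Com c x) :
    (zpowers c).index ≠ 0 := by
  have hfin : (Set.univ : Set (G ⧸ zpowers c)).Finite := by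
    apply (union_finite c hF).subset
    intro y _
    obtain ⟨g, rfl⟩ := QuotientGroup.mk_surjective y
    obtain ⟨x, hx, i, j, rfl⟩ := hcov g
    exact mem_union hx (hcom x hx) i j
  have : Finite (G ⧸ zpowers c) := Set.finite_univ_iff.1 hfin
  exact Subgroup.index_ne_zero_of_finite

/-- Each element which commensurates has a power in the cyclic subgroup. -/
lemma pow_of_com {c : G} {F : Set G} (hF : F.Finite)
    (hcov : ∀ g : G, ∃ x ∈ F, ∃ i j : ℤ, g = c ^ i * x * c ^ j) {y : G} (hy : Com c y) :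
    ∃ j : ℤ, j ≠ 0 ∧ y ^ j ∈ zpowers c := by
  have hyn : ∀ n : ℕ, Com c (y ^ n) := by
    intro n
    induction n with
    | zero => exact com_pow c 0 |> fun h => by simpa using h
    | succ n ih => rw [pow_succ]; exact com_mul ih hy
  have hmaps : Set.MapsTo (fun n : ℕ => ((y ^ n : G) : G ⧸ zpowers c)) Set.univ
      (⋃ x ∈ {x ∈ F | Com c x}, Set.range fun i : ℤ => ((c ^ i * x : G) : G ⧸ zpowers c)) := by
    intro n _
    obtain ⟨x, hx, i, j, h⟩ := hcov (y ^ n)
    have hxc : Com c x := by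
      have e : x = c ^ (-i) * y ^ n * c ^ (-j) := by rw [h]; group
      rw [e]
      exact com_mul (com_mul (com_pow c _) (hyn n)) (com_pow c _)
    show ((y ^ n : G) : G ⧸ zpowers c) ∈ _
    rw [h]
    exact mem_union hx hxc i j
  obtain ⟨m, _, n, _, hmn, h⟩ := Set.infinite_univ.exists_ne_map_eq_of_mapsTo hmaps (union_finite c hF)
  have h' : ((y ^ m : G) : G ⧸ zpowers c) = ((y ^ n : G) : G ⧸ zpowers c) := h
  rw [QuotientGroup.eq] at h'
  refine ⟨(n : ℤ) - m, by omega, ?_⟩
  have e : y ^ ((n : ℤ) - m) = (y ^ m)⁻¹ * y ^ n := by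
    rw [← zpow_natCast y m, ← zpow_natCast y n]
    group
  rw [e]
  exact h'

/-- The statement for a generator. -/
theorem main (c f : G) {F : Set G} (hF : F.Finite)
    (hcov : ∀ g : G, ∃ x ∈ F, ∃ i j : ℤ, g = c ^ i * x * c ^ j)
    (hf : ∀ x ∈ F, Com c x ∨ ∃ a b : ℤ, x = c ^ a * f * c ^ b) : (zpowers c).index ≠ 0 := by
  by_cases hc : ∃ n : ℤ, n ≠ 0 ∧ c ^ n = 1
  · obtain ⟨n, hn, h⟩ := hc
    exact index_of_com c hF hcov fun x _ => ⟨n, 0, hn, by rw [h, zpow_zero, one_mul, mul_one]⟩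
  push Not at hc
  by_cases hM : Com c f
  · refine index_of_com c hF hcov fun x hx => ?_
    rcases hf x hx with h | ⟨a, b, rfl⟩
    · exact h
    · exact com_mul (com_mul (com_pow c _) hM) (com_pow c _)
  exfalso
  have hcov2 : ∀ g : G, Com c g ∨ ∃ a b : ℤ, g = c ^ a * f * c ^ b := by
    intro g
    obtain ⟨x, hx, i, j, rfl⟩ := hcov g
    rcases hf x hx with h | ⟨a, b, rfl⟩
    · exact Or.inl (com_mul (com_mul (com_pow c _) h) (com_pow c _))
    · exact Or.inr ⟨i + a, b + j, by group⟩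
  have hA : ∀ n : ℤ, n ≠ 0 → ¬ Com c (f * c ^ n * f⁻¹) := by
    intro n hn h
    obtain ⟨j, hj, hmem⟩ := pow_of_com hF hcov h
    rw [conj_zpow] at hmem
    obtain ⟨i, hi⟩ := mem_zpowers_iff.1 hmem
    apply hM
    refine ⟨i, n * j, ?_, ?_⟩
    · rintro rfl
      rw [zpow_zero] at hi
      apply hc (n * j) (mul_ne_zero hn hj)
      rw [zpow_mul]
      have : (c ^ n) ^ j = f⁻¹ * (f * (c ^ n) ^ j * f⁻¹) * f := by group
      rw [this, ← hi]
      group
    · rw [hi, zpow_mul]
      group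
  rcases hcov2 f⁻¹ with h | ⟨a, b, h⟩
  · exact hM (by simpa using com_inv hc h)
  have e1 : f * c ^ a * f = c ^ (-b) := by
    calc f * c ^ a * f = f * (c ^ a * f * c ^ b) * c ^ (-b) := by group
      _ = c ^ (-b) := by rw [← h]; group
  have e2 : f * c ^ b * f = c ^ (-a) := by
    have e3 : f * c ^ b * f = c ^ (-a) * ((c ^ a * f * c ^ b) * f) := by group
    rw [e3, ← h]
    group
  have hab : a - b = 0 := by
    by_contra hab
    apply hA _ hab
    have e3 : f * c ^ (a - b) * f⁻¹ = (f * c ^ a * f) * (f * c ^ b * f)⁻¹ := by group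
    have e4 : c ^ (-b) * (c ^ (-a))⁻¹ = c ^ (a - b) := by group
    rw [e3, e1, e2, e4]
    exact com_pow c _
  have hab' : b = a := by omega
  rw [hab'] at e1
  have hff : (f * c ^ a) * (f * c ^ a) = 1 := by
    calc (f * c ^ a) * (f * c ^ a) = (f * c ^ a * f) * c ^ a := by group
      _ = 1 := by rw [e1]; group
  have hconj : ∀ n : ℤ, f * c ^ a * c ^ n * (f * c ^ a) = f * c ^ n * f⁻¹ := by
    intro n
    calc f * c ^ a * c ^ n * (f * c ^ a) = f * c ^ a * c ^ n * (f * c ^ a)⁻¹ := by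
          rw [inv_eq_iff_mul_eq_one.2 hff]
      _ = f * c ^ n * f⁻¹ := by group
  refine key c (f * c ^ a) hff ?_ ?_
  · intro n hn
    rw [hconj]
    rcases hcov2 (f * c ^ n * f⁻¹) with h1 | ⟨i, j, h1⟩
    · exact absurd h1 (hA n hn)
    · exact ⟨i, j - a, by rw [h1]; group⟩
  · intro m hm hmem
    rw [hconj] at hmem
    obtain ⟨i, hi⟩ := mem_zpowers_iff.1 hmem
    apply hA m hm
    rw [← hi]
    exact com_pow c i

/-- **Products `C F C` in which at most one double coset is an infinite union of cosets.** Let `G` be a group, `C` a cyclic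
subgroup, `F` a finite set with `G = C F C` and `f` an element such that for each `x ∈ F` outside of the double coset `C f C` the
double coset `C x C` contains only finitely many left cosets of `C`. Then the index of `C` is finite. -/
theorem result (G : Type) [Group G] (C : Subgroup G) (F : Set G) (f : G) (hC : IsCyclic C) (hF : F.Finite)
    (hcov : ∀ g : G, ∃ c₁ ∈ C, ∃ x ∈ F, ∃ c₂ ∈ C, g = c₁ * x * c₂)
    (hf : ∀ x ∈ F, {z : G ⧸ C | ∃ a ∈ C, z = ((a * x : G) : G ⧸ C)}.Finite ∨
      ∃ a ∈ C, ∃ b ∈ C, x = a * f * b) : C.index ≠ 0 := by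
  obtain ⟨c0, hc0⟩ := hC.exists_generator
  have hCz : C = zpowers (c0 : G) := by
    apply le_antisymm
    · intro x hx
      obtain ⟨k, hk⟩ := mem_zpowers_iff.mp (hc0 ⟨x, hx⟩)
      rw [mem_zpowers_iff]
      exact ⟨k, by rw [← coe_zpow, hk]⟩
    · rw [zpowers_le]
      exact c0.2
  obtain ⟨c, hc⟩ : ∃ c : G, c = (c0 : G) := ⟨_, rfl⟩
  rw [← hc] at hCz
  subst hCz
  apply main c f hF
  · intro g
    obtain ⟨c₁, h1, x, hx, c₂, h2, rfl⟩ := hcov g
    obtain ⟨i, rfl⟩ := mem_zpowers_iff.1 h1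
    obtain ⟨j, rfl⟩ := mem_zpowers_iff.1 h2
    exact ⟨x, hx, i, j, rfl⟩
  · intro x hx
    rcases hf x hx with h | ⟨a, ha, b, hb, rfl⟩
    · left
      have hmaps : Set.MapsTo (fun i : ℤ => ((c ^ i * x : G) : G ⧸ zpowers c)) Set.univ
          {z : G ⧸ zpowers c | ∃ a ∈ zpowers c, z = ((a * x : G) : G ⧸ zpowers c)} := fun i _ =>
        ⟨c ^ i, zpow_mem (mem_zpowers c) i, rfl⟩
      obtain ⟨i, _, j, _, hij, h2⟩ := Set.infinite_univ.exists_ne_map_eq_of_mapsTo hmaps h
      have h3 : ((c ^ i * x : G) : G ⧸ zpowers c) = ((c ^ j * x : G) : G ⧸ zpowers c) := h2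
      rw [QuotientGroup.eq] at h3
      obtain ⟨m, hm⟩ := mem_zpowers_iff.1 h3
      refine ⟨j - i, m, by omega, ?_⟩
      rw [hm]
      group
    · right
      obtain ⟨i, rfl⟩ := mem_zpowers_iff.1 ha
      obtain ⟨j, rfl⟩ := mem_zpowers_iff.1 hb
      exact ⟨i, j, rfl⟩

end Pool.Agent.Results.MP_ece58e_al.OneInfiniteDoubleCoset
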